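import Pool.Agent.Helper17.SLD.Goals
import Pool.Agent.Helper12.SL.GA1
import Pool.Agent.Helper12.SL.GA7

/-!
# Project SLD: packet V1
-/

namespace Pool.Agent.Helper17.SLD.PkV1

open Pool.Agent.Helper17.SL Pool.Agent.Helper42.SLC
open Pool.Agent.Helper51.SigLeo Pool.Agent.Helper51.SixExp NumberField Module TensorProduct

universe u v w x y z

/-- The embeddings of a totally real field are real. -/
theorem conj_eq {F : Type*} [Field F] [NumberField F] [IsTotallyReal F] (φ : F →+* ℂ) :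
    ComplexEmbedding.conjugate φ = φ :=
  InfinitePlace.isReal_mk_iff.mp (IsTotallyReal.isReal (InfinitePlace.mk φ))

/-- **V1.** -/
theorem thm (hUP : S_UP.{u, v, w}) : S_V1.{u, v, w, x} := by
  intro F _ _ _ N _ _ _ _ _ Ω _ _ _ _ p _ k _ _ ιp Λ θ s hθ σ σ' v w
  classical
  have hchar : CharZero k := charZero_of_padic p (k := k)
  have hfd : FiniteDimensional F N := FiniteDimensional.right ℚ F N
  obtain ⟨E, hE, θ₁, hθ₁⟩ := (Pool.Agent.Helper17.SL.PkGA1.thm : S_GA1.{w, x, v}) Ω k ιp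
    (N ≃ₐ[F] N) θ
  set j : E →+* k := ιp.comp (algebraMap E Ω) with hjdef
  have hj : ∀ g, j ((θ₁ g : Eˣ) : E) = θ g := hθ₁
  obtain ⟨ρ₀, hρ₀⟩ := exists_extend_embedding (H := N) s
  obtain ⟨τ⟩ : Nonempty (N →+* Ω) := inferInstance
  obtain ⟨ι', -⟩ := exists_comp_eq τ ρ₀
  obtain ⟨e, he, hrel⟩ := hUP F N E (ι'.comp (algebraMap E Ω)) θ₁ 1 (fun _ ↦ ρ₀) (fun ρ ↦ by
    by_cases h : ρ.comp (algebraMap F N) = s
    · right
      obtain ⟨g, hg⟩ := (Pool.Agent.Helper17.SL.PkGA7.thm : S_GA7.{u, v, 0}) F N ℂ ρ₀ ρ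
        (hρ₀.trans h.symm)
      exact ⟨0, g, Or.inl hg⟩
    · left
      obtain ⟨c, hc⟩ := (Pool.Agent.Helper17.SL.PkGA7.thm : S_GA7.{u, v, 0}) F N ℂ ρ
        (ComplexEmbedding.conjugate ρ) (by
          rw [ComplexEmbedding.conjugate_comp, conj_eq])
      refine ⟨c, hc, fun h1 ↦ ?_⟩
      have h2 := (hθ ρ c hc).2 h
      have h3 := hj c
      rw [h1, h2, Units.val_one, map_one, Units.val_neg, Units.val_one] at h3
      have h4 : (2 : k) = 0 := by linear_combination h3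
      exact two_ne_zero h4) ![v, w]
  rw [Fin.sum_univ_two] at hrel
  have key : ∀ ρ : N →+* k, j (e 0) * tw θ (logUnits Λ ρ) v + j (e 1) * tw θ (logUnits Λ ρ) w =
      0 := by
    intro ρ
    have h1 := congrArg (Phi j (logUnits Λ ρ)) hrel
    rw [map_add, map_zero, Phi_smul, Phi_smul, smul_eq_mul, smul_eq_mul,
      Phi_eq_tw j θ₁ θ hj, Phi_eq_tw j θ₁ θ hj] at h1
    exact h1
  have h0 := key σ
  have h1 := key σ'
  have h2 : j (e 0) ≠ 0 ∨ j (e 1) ≠ 0 := by
    by_contra hcon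
    push Not at hcon
    apply he
    funext i
    fin_cases i
    · exact (map_eq_zero j).mp hcon.1
    · exact (map_eq_zero j).mp hcon.2
  rcases h2 with h2 | h2
  · apply mul_left_cancel₀ h2
    linear_combination (tw θ (logUnits Λ σ') w) * h0 - (tw θ (logUnits Λ σ) w) * h1
  · apply mul_left_cancel₀ h2
    linear_combination (tw θ (logUnits Λ σ) v) * h1 - (tw θ (logUnits Λ σ') v) * h0

end Pool.Agent.Helper17.SLD.PkV1
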